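import Pool.Agent.Helper95.BG.Goals

/-!
# Boolean grammars: the tree evaluation is a linear-space function
-/

namespace Pool.Agent.Helper56.BG.PkLSE

open Pool.Agent.Helper95.BG
open Pool.Agent.Helper65.LinSpace Pool.Agent.Helper78 Pool.Agent.Helper78.Mpc
  Pool.Agent.Helper78.Xor Finset

variable {α β : Type} [Ctx α] [Ctx β]

structure Bq (q C : α → ℕ) : Prop where
  hq : LS q
  hC : LS C
  b2 : ∀ z, 2 ^ q z ≤ C z

theorem Bq.comp {q C : α → ℕ} (h : Bq q C) {f : β → α} (hf : LS f) :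
    Bq (fun z => q (f z)) (fun z => C (f z)) where
  hq := LS.comp h.hq hf
  hC := LS.comp h.hC hf
  b2 z := h.b2 (f z)

theorem Bq.pow {q C : α → ℕ} (h : Bq q C) : LS (fun z => 2 ^ q z) :=
  LS.pow_of_le (f := fun _ => 2) (by fun_prop) h.hq h.hC h.b2

theorem Bq.fst {q C : α → ℕ} (h : Bq q C) :
    Bq (α := α × ℕ) (fun z => q z.1) (fun z => C z.1) :=
  h.comp (f := fun z : α × ℕ => z.1) (by fun_prop)

section

variable {q C : α → ℕ}

theorem LS_digQ (h : Bq q C) {R i : α → ℕ} (hR : LS R) (hi : LS i) :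
    LS (fun a => dig (2 ^ q a) (R a) (i a)) :=
  LS.dig h.pow hR hi

theorem LS_lor (h : Bq q C) {x y : α → ℕ} (hx : LS x) (hy : LS y) :
    LS (fun a => lor (q a) (x a) (y a)) := by
  unfold lor
  refine LS.tab (q := fun _ : α => 2) (m := q) (C := C)
    (d := fun a t => lt01 0 (dig 2 (x a) t + dig 2 (y a) t)) ?_ (by fun_prop) h.hq h.hC
    (fun a i _ => lt01_lt_two _ _) h.b2
  fun_prop

theorem LS_orB (h : Bq q C) {lo hi : α → ℕ} {f : α → ℕ → ℕ} (hlo : LS lo) (hhi : LS hi)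
    (hf : LS1 f) : LS (fun a => orB (q a) (lo a) (hi a) (f a)) := by
  unfold orB
  refine LS.tab (q := fun _ : α => 2) (m := q) (C := C)
    (d := fun a t => lt01 0 (∑ k ∈ range (hi a - lo a), dig 2 (f a (lo a + k)) t)) ?_
    (by fun_prop) h.hq h.hC (fun a i _ => lt01_lt_two _ _) h.b2
  refine LS.lt01 (by fun_prop) ?_
  refine LS.sum_le (α := α × ℕ) (f := fun z k => dig 2 (f z.1 (lo z.1 + k)) z.2)
    (N := fun z => hi z.1 - lo z.1) (B := fun _ => 1) ?_ (by fun_prop) (by fun_prop)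
    (fun z k _ => Nat.lt_succ_iff.1 (dig2_lt _ _))
  exact LS.dig (by fun_prop) (hf.app (f := fun w : (α × ℕ) × ℕ => w.1.1)
    (x := fun w : (α × ℕ) × ℕ => lo w.1.1 + w.2) (by fun_prop) (by fun_prop)) (by fun_prop)

theorem LS_btN (h : Bq q C) {BT x y : α → ℕ} (hB : LS BT) (hx : LS x) (hy : LS y) :
    LS (fun a => btN (q a) (BT a) (x a) (y a)) := by
  unfold btN
  exact LS_digQ h hB (LS.add (LS.mul hx h.pow) hy)

theorem LS_psN (h : Bq q C) {PS x : α → ℕ} (hP : LS PS) (hx : LS x) :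
    LS (fun a => psN (q a) (PS a) (x a)) := by
  unfold psN
  exact LS_digQ h hP hx

variable {b BT PS I J DI DJ S W c : α → ℕ} {lt : α → ℕ → ℕ}

theorem LS_cellL (h : Bq q C) (hb : LS b) (hBT : LS BT) (hPS : LS PS) (hlt : LS1 lt)
    (hI : LS I) (hJ : LS J) (hDI : LS DI) (hDJ : LS DJ) (hS : LS S) (hW : LS W) (hc : LS c) :
    LS (fun a => cellL (q a) (b a) (lt a) (btN (q a) (BT a)) (psN (q a) (PS a)) (I a) (J a)
      (DI a) (DJ a) (S a) (W a) (c a)) := by
  unfold cellL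
  refine LS.ifz (LS.lt01 (by fun_prop) (by fun_prop)) (LS.const 0) (LS.ifz
    (LS.eq01 (by fun_prop) (by fun_prop)) (LS_psN h hPS (LS_lor h (LS_lor h (LS_orB h
      (by fun_prop) (by fun_prop) ?_) (LS_digQ h hS hc)) (LS_orB h (by fun_prop)
      (by fun_prop) ?_))) (hlt.app (f := fun a => a) (LS.id) (by fun_prop)))
  · exact LS_btN h.fst (by fun_prop) (LS_digQ h.fst (by fun_prop) (by fun_prop))
      (LS_digQ h.fst (by fun_prop) (by fun_prop))
  · exact LS_btN h.fst (by fun_prop) (LS_digQ h.fst (by fun_prop) (by fun_prop))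
      (LS_digQ h.fst (by fun_prop) (by fun_prop))

end

theorem cellL_lt {q b BT PS I J DI DJ S W c : ℕ} {lt : ℕ → ℕ} (hlt : ∀ i, lt i < 2 ^ q) :
    cellL q b lt (btN q BT) (psN q PS) I J DI DJ S W c < 2 ^ q := by
  unfold cellL
  have h0 : 0 < 2 ^ q := by positivity
  unfold ifz
  split_ifs
  · exact h0
  · unfold psN
    exact dig_lt h0 _ _
  · exact hlt _

theorem stepL_lt {q b BT PS I J DI DJ S W : ℕ} {lt : ℕ → ℕ} (hlt : ∀ i, lt i < 2 ^ q) :
    stepL q b lt (btN q BT) (psN q PS) I J DI DJ S W < (2 ^ q) ^ (b * b) := by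
  unfold stepL
  exact tab_lt fun _ _ => cellL_lt hlt

theorem diagL_aux {q b BT PS I : ℕ} {lt : ℕ → ℕ} (hlt : ∀ i, lt i < 2 ^ q) (i : ℕ) :
    nrec 0 (fun _ W => stepL q b lt (btN q BT) (psN q PS) I I W W 0 W) i <
      (2 ^ q) ^ (b * b) := by
  cases i with
  | zero => rw [nrec_zero]; positivity
  | succ i => rw [nrec_succ]; exact stepL_lt hlt

theorem offL_aux {q b BT PS I J S DI DJ : ℕ} {lt : ℕ → ℕ} (hlt : ∀ i, lt i < 2 ^ q) (i : ℕ) :
    nrec 0 (fun _ W => stepL q b lt (btN q BT) (psN q PS) I J DI DJ S W) i <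
      (2 ^ q) ^ (b * b) := by
  cases i with
  | zero => rw [nrec_zero]; positivity
  | succ i => rw [nrec_succ]; exact stepL_lt hlt

section

variable {q b C : α → ℕ}

/-- The bounds for the blocks. -/
structure Bb (q b C : α → ℕ) : Prop where
  h : Bq q C
  hb : LS b
  b3 : ∀ z, (2 ^ q z) ^ (b z * b z) ≤ C z

theorem Bb.comp (h : Bb q b C) {f : β → α} (hf : LS f) :
    Bb (fun z => q (f z)) (fun z => b (f z)) (fun z => C (f z)) where
  h := h.h.comp hf
  hb := LS.comp h.hb hf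
  b3 z := h.b3 (f z)

theorem LS1.comp' {f : α → ℕ → ℕ} (hf : LS1 f) {g : β → α} (hg : LS g) :
    LS1 (fun z => f (g z)) :=
  hf.app (f := fun z : β × ℕ => g z.1) (x := fun z : β × ℕ => z.2)
    (LS.comp (g := g) (f := fun z : β × ℕ => z.1) hg (by fun_prop)) (by fun_prop)

variable {BT PS I J DI DJ S W c A B : α → ℕ} {lt : α → ℕ → ℕ}

theorem LS_stepL (h : Bb q b C) (hBT : LS BT) (hPS : LS PS) (hlt : LS1 lt)
    (hlt' : ∀ z i, lt z i < 2 ^ q z)
    (hI : LS I) (hJ : LS J) (hDI : LS DI) (hDJ : LS DJ) (hS : LS S) (hW : LS W) :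
    LS (fun a => stepL (q a) (b a) (lt a) (btN (q a) (BT a)) (psN (q a) (PS a)) (I a) (J a)
      (DI a) (DJ a) (S a) (W a)) := by
  have hb := h.hb
  unfold stepL
  refine LS.tab (q := fun a => 2 ^ q a) (m := fun a => b a * b a) (C := C)
    (d := fun a => cellL (q a) (b a) (lt a) (btN (q a) (BT a)) (psN (q a) (PS a)) (I a) (J a)
      (DI a) (DJ a) (S a) (W a)) ?_ h.h.pow (by fun_prop) h.h.hC
      (fun a i _ => cellL_lt (hlt' a)) h.b3
  exact LS_cellL (α := α × ℕ) (q := fun z => q z.1) (b := fun z => b z.1) (BT := fun z => BT z.1)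
    (PS := fun z => PS z.1) (I := fun z => I z.1) (J := fun z => J z.1) (DI := fun z => DI z.1)
    (DJ := fun z => DJ z.1) (S := fun z => S z.1) (W := fun z => W z.1) (c := fun z => z.2)
    (lt := fun z => lt z.1) (C := fun z => C z.1)
    h.h.fst (by fun_prop) (by fun_prop) (by fun_prop) (LS1.comp' hlt (by fun_prop))
    (by fun_prop) (by fun_prop) (by fun_prop) (by fun_prop) (by fun_prop) (by fun_prop)
    (by fun_prop)

theorem LS_diagL (h : Bb q b C) (hBT : LS BT) (hPS : LS PS) (hlt : LS1 lt)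
    (hlt' : ∀ z i, lt z i < 2 ^ q z) (hI : LS I) :
    LS (fun a => diagL (q a) (b a) (lt a) (btN (q a) (BT a)) (psN (q a) (PS a)) (I a)) := by
  have hb := h.hb
  unfold diagL
  refine LS.nrec (G := fun _ => 0) (N := fun a => 2 * b a) (C := C)
    (K := fun a _ W => stepL (q a) (b a) (lt a) (btN (q a) (BT a)) (psN (q a) (PS a)) (I a) (I a)
      W W 0 W) (by fun_prop) (by fun_prop) h.h.hC ?_
      (fun a i _ => (diagL_aux (hlt' a) i).le.trans (h.b3 a))
  exact LS_stepL (α := α × ℕ × ℕ) (q := fun z => q z.1) (b := fun z => b z.1)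
    (C := fun z => C z.1) (BT := fun z => BT z.1)
    (PS := fun z => PS z.1) (I := fun z => I z.1) (J := fun z => I z.1) (DI := fun z => z.2.2)
    (DJ := fun z => z.2.2) (S := fun _ => 0) (W := fun z => z.2.2)
    (lt := fun z => lt z.1)
    (h.comp (f := fun z : α × ℕ × ℕ => z.1) (by fun_prop)) (by fun_prop) (by fun_prop)
    (LS1.comp' (g := fun z : α × ℕ × ℕ => z.1) hlt (by fun_prop))
    (fun z i => hlt' z.1 i)
    (by fun_prop) (by fun_prop) (by fun_prop) (by fun_prop) (by fun_prop) (by fun_prop)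

theorem LS_offL (h : Bb q b C) (hBT : LS BT) (hPS : LS PS) (hlt : LS1 lt)
    (hlt' : ∀ z i, lt z i < 2 ^ q z) (hI : LS I) (hJ : LS J) (hS : LS S) :
    LS (fun a => offL (q a) (b a) (lt a) (btN (q a) (BT a)) (psN (q a) (PS a)) (I a) (J a)
      (S a)) := by
  have hb := h.hb
  have hd1 := LS_diagL (I := I) h hBT hPS hlt hlt' hI
  have hd2 := LS_diagL (I := J) h hBT hPS hlt hlt' hJ
  unfold offL
  refine LS.nrec (G := fun _ => 0) (N := fun a => 2 * b a) (C := C)
    (K := fun a _ W => stepL (q a) (b a) (lt a) (btN (q a) (BT a)) (psN (q a) (PS a)) (I a) (J a)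
      (diagL (q a) (b a) (lt a) (btN (q a) (BT a)) (psN (q a) (PS a)) (I a))
      (diagL (q a) (b a) (lt a) (btN (q a) (BT a)) (psN (q a) (PS a)) (J a))
      (S a) W) (by fun_prop) (by fun_prop) h.h.hC ?_
      (fun a i _ => (offL_aux (hlt' a) i).le.trans (h.b3 a))
  exact LS_stepL (α := α × ℕ × ℕ) (q := fun z => q z.1) (b := fun z => b z.1)
    (C := fun z => C z.1) (BT := fun z => BT z.1)
    (PS := fun z => PS z.1) (I := fun z => I z.1) (J := fun z => J z.1)
    (DI := fun z => diagL (q z.1) (b z.1) (lt z.1) (btN (q z.1) (BT z.1)) (psN (q z.1) (PS z.1))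
      (I z.1))
    (DJ := fun z => diagL (q z.1) (b z.1) (lt z.1) (btN (q z.1) (BT z.1)) (psN (q z.1) (PS z.1))
      (J z.1)) (S := fun z => S z.1) (W := fun z => z.2.2)
    (lt := fun z => lt z.1)
    (h.comp (f := fun z : α × ℕ × ℕ => z.1) (by fun_prop)) (by fun_prop) (by fun_prop)
    (LS1.comp' (g := fun z : α × ℕ × ℕ => z.1) hlt (by fun_prop))
    (fun z i => hlt' z.1 i)
    (by fun_prop) (by fun_prop)
    (LS.comp (f := fun z : α × ℕ × ℕ => z.1) hd1 (by fun_prop))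
    (LS.comp (f := fun z : α × ℕ × ℕ => z.1) hd2 (by fun_prop)) (by fun_prop) (by fun_prop)

theorem LS_prodL (h : Bb q b C) (hBT : LS BT) (hA : LS A) (hB : LS B) :
    LS (fun a => prodL (q a) (b a) (btN (q a) (BT a)) (A a) (B a)) := by
  have hb := h.hb
  unfold prodL
  refine LS.tab (q := fun a => 2 ^ q a) (m := fun a => b a * b a) (C := C)
    (d := fun a c => orB (q a) 0 (b a) fun k =>
      btN (q a) (BT a) (dig (2 ^ q a) (A a) (c / b a * b a + k))
        (dig (2 ^ q a) (B a) (k * b a + c % b a))) ?_ h.h.pow (by fun_prop) h.h.hC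
      (fun a i _ => orB_lt _ _ _ _) h.b3
  refine LS_orB (α := α × ℕ) (q := fun z => q z.1) (C := fun z => C z.1) (lo := fun _ => 0)
    (hi := fun z => b z.1) (f := fun z k => btN (q z.1) (BT z.1)
      (dig (2 ^ q z.1) (A z.1) (z.2 / b z.1 * b z.1 + k))
        (dig (2 ^ q z.1) (B z.1) (k * b z.1 + z.2 % b z.1)))
    h.h.fst (by fun_prop) (by fun_prop) ?_
  exact LS_btN h.h.fst.fst (by fun_prop) (LS_digQ h.h.fst.fst (by fun_prop) (by fun_prop))
      (LS_digQ h.h.fst.fst (by fun_prop) (by fun_prop))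

theorem LS_sumL (h : Bb q b C) (hA : LS A) (hB : LS B) :
    LS (fun a => sumL (q a) (b a) (A a) (B a)) := by
  have hb := h.hb
  unfold sumL
  refine LS.tab (q := fun a => 2 ^ q a) (m := fun a => b a * b a) (C := C)
    (d := fun a c => lor (q a) (dig (2 ^ q a) (A a) c) (dig (2 ^ q a) (B a) c)) ?_
      h.h.pow (by fun_prop) h.h.hC (fun a i _ => lor_lt _ _ _) h.b3
  exact LS_lor (α := α × ℕ) (q := fun z => q z.1) (C := fun z => C z.1) h.h.fst
    (LS_digQ h.h.fst (by fun_prop) (by fun_prop)) (LS_digQ h.h.fst (by fun_prop) (by fun_prop))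

end

theorem chT_le {M : ℕ} (hM : 0 < M) (Λ u i : ℕ) :
    chT M Λ u i ≤ u + (Λ + 2) * (M * M * M) := by
  have h1 : u % M < M := Nat.mod_lt _ hM
  have h2 : u / M % M < M := Nat.mod_lt _ hM
  have h3 : u / M / M % M < M := Nat.mod_lt _ hM
  have h4 : (2 * (u % M) + i) % M < M := Nat.mod_lt _ hM
  have hMM : 1 * (M * M * M) ≤ (Λ + 2) * (M * M * M) := Nat.mul_le_mul_right _ (by omega)
  unfold chT
  by_cases c0 : u / M / M / M = 0
  · rw [c0, ifz_zero]
    have := pack4_lt (Λ + 1) h3 h2 hM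
    have e : Λ + 1 + 1 = Λ + 2 := rfl
    rw [e] at this
    omega
  · rw [ifz_ne c0]
    by_cases c1 : u / M / M / M - 1 = 0
    · rw [c1, ifz_zero]
      by_cases c2 : i = 0
      · rw [c2, ifz_zero]
        have := pack4_lt 0 h3 h1 hM
        rw [zero_add] at this
        omega
      · rw [ifz_ne c2]
        have := pack4_lt 0 h1 h2 hM
        rw [zero_add] at this
        omega
    · rw [ifz_ne c1]
      have h5 := pack4_lt (u / M / M / M - 1) h3 h2 h4
      have h6 : u / M / M / M - 1 + 1 = u / M / M / M :=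
        Nat.sub_add_cancel (Nat.pos_of_ne_zero c0)
      rw [h6] at h5
      have h7 : u / M / M / M * (M * M * M) ≤ u := by
        rw [Nat.div_div_eq_div_mul, Nat.div_div_eq_div_mul, mul_assoc M M M]
        exact Nat.div_mul_le_self _ _
      omega

theorem FT_lt {q b M BT PS u x : ℕ} {lt : ℕ → ℕ} (hlt : ∀ i, lt i < 2 ^ q) :
    FT q b M lt (btN q BT) (psN q PS) u x < 2 ^ (b * b * q) := by
  have e : 2 ^ (b * b * q) = (2 ^ q) ^ (b * b) := by rw [← pow_mul, mul_comm q]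
  rw [e]
  unfold FT
  unfold ifz
  split_ifs
  · unfold offL
    exact offL_aux hlt _
  · unfold diagL
    exact diagL_aux hlt _
  · positivity
  · unfold prodL
    exact tab_lt fun _ _ => orB_lt _ _ _ _
  · unfold sumL
    exact tab_lt fun _ _ => lor_lt _ _ _

theorem thm : G_LSE := by
  intro α _ q b Λ m BT PS C lt hq hb hΛ hm hBT hPS hC hlt hlt' hb2 hb5 hb3 hb4
  have hM : LS (fun z => 2 ^ Λ z) := LS.pow_of_le (f := fun _ => 2) (by fun_prop) hΛ hC hb5
  have hb6 : ∀ z, 2 ^ (b z * b z * q z) ≤ C z := fun z => by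
    refine le_trans ?_ (hb3 z)
    refine (Nat.pow_le_pow_left (pL_spec (b z * b z * q z)).1.two_le _).trans ?_
    exact Nat.pow_le_pow_right (pL_spec (b z * b z * q z)).1.pos (by omega)
  have hL : LS (fun z => b z * b z * q z) := by fun_prop
  have hp : LS (fun z => 2 ^ (b z * b z * q z)) := LS.pow_of_le (f := fun _ => 2) (by fun_prop)
    hL hC hb6
  have hBq : Bq q C := ⟨hq, hC, hb2⟩
  have hBb : Bb q b C := ⟨hBq, hb, fun z => by
    have := hb6 z
    rwa [mul_comm, pow_mul] at this⟩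
  have hVT : LS (fun z => VT (q z) (b z) (Λ z) (lt z) (btN (q z) (BT z)) (psN (q z) (PS z))
      (m z / b z * (Λ z + 2) + 1) (pack4 (2 ^ Λ z) 0 0 (m z / b z) 0)) := by
    unfold VT
    refine LS.gval (p := fun z => pL (b z * b z * q z)) (D := fun _ => 2)
      (L := fun z => b z * b z * q z) (h := fun z => m z / b z * (Λ z + 2) + 1)
      (root := fun z => pack4 (2 ^ Λ z) 0 0 (m z / b z) 0)
      (G := fun z => (Λ z + 2) * (2 ^ Λ z * 2 ^ Λ z * 2 ^ Λ z)) (C := C)
      (F := fun z => FT (q z) (b z) (2 ^ Λ z) (lt z) (btN (q z) (BT z)) (psN (q z) (PS z)))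
      (leaf := fun _ _ => 0)
      (ch := fun z => chT (2 ^ Λ z) (Λ z)) ?_ (LS.const 2) hL (by fun_prop) ?_ ?_ hC
      ?_ ?_ ?_ ?_ ?_ ?_ ?_ ?_ ?_ ?_ ?_
    · unfold pL
      fun_prop
    · exact LS.pack4 hM (by fun_prop) (by fun_prop) (by fun_prop) (by fun_prop)
    · exact LS.mul (by fun_prop) (LS.mul (LS.mul hM hM) hM)
    · have hM' : LS (fun w : α × ℕ × ℕ => 2 ^ Λ w.1) :=
        LS.comp (f := fun q : α × ℕ × ℕ => q.1) hM (by fun_prop)
      have hp' : LS (fun w : α × ℕ × ℕ => 2 ^ (b w.1 * b w.1 * q w.1)) :=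
        LS.comp (f := fun q : α × ℕ × ℕ => q.1) hp (by fun_prop)
      have hd0 : LS (fun w : α × ℕ × ℕ => dig (2 ^ (b w.1 * b w.1 * q w.1)) w.2.2 0) :=
        LS.dig hp' (by fun_prop) (LS.const 0)
      have hd1 : LS (fun w : α × ℕ × ℕ => dig (2 ^ (b w.1 * b w.1 * q w.1)) w.2.2 1) :=
        LS.dig hp' (by fun_prop) (LS.const 1)
      have hu' : LS (fun w : α × ℕ × ℕ => w.2.1) := by fun_prop
      have hBb' : Bb (α := α × ℕ × ℕ) (fun w => q w.1) (fun w => b w.1) (fun w => C w.1) :=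
        hBb.comp (f := fun q : α × ℕ × ℕ => q.1) (by fun_prop)
      have hlt1 : LS1 (fun w : α × ℕ × ℕ => lt w.1) :=
        LS1.comp' (g := fun q : α × ℕ × ℕ => q.1) hlt (by fun_prop)
      have hlt2 : ∀ (w : α × ℕ × ℕ) i, lt w.1 i < 2 ^ q w.1 := fun w i => hlt' w.1 i
      have hBT' : LS (fun w : α × ℕ × ℕ => BT w.1) := by fun_prop
      have hPS' : LS (fun w : α × ℕ × ℕ => PS w.1) := by fun_prop
      have g3 : LS (fun w : α × ℕ × ℕ => w.2.1 / 2 ^ Λ w.1 / 2 ^ Λ w.1 / 2 ^ Λ w.1) :=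
        LS.div (LS.div (LS.div hu' hM') hM') hM'
      have g2 : LS (fun w : α × ℕ × ℕ => w.2.1 / 2 ^ Λ w.1 / 2 ^ Λ w.1 % 2 ^ Λ w.1) :=
        LS.mod (LS.div (LS.div hu' hM') hM') hM'
      have g1 : LS (fun w : α × ℕ × ℕ => w.2.1 / 2 ^ Λ w.1 % 2 ^ Λ w.1) :=
        LS.mod (LS.div hu' hM') hM'
      have g0 : LS (fun w : α × ℕ × ℕ => w.2.1 % 2 ^ Λ w.1) := LS.mod hu' hM'
      unfold FT
      exact LS.ifz g3 (LS.ifz (LS.eq01 g2 g1)
        (LS_offL hBb' hBT' hPS' hlt1 hlt2 g2 g1 hd0)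
        (LS_diagL hBb' hBT' hPS' hlt1 hlt2 g2))
        (LS.ifz (LS.sub g3 (LS.const 1)) (LS.ifz (LS.mul (LS.lt01 g2 g0) (LS.lt01 g0 g1))
          (LS.const 0) (LS_prodL hBb' hBT' hd0 hd1)) (LS_sumL hBb' hd0 hd1))
    · exact LS.const 0
    · have hM' : LS (fun w : α × ℕ × ℕ => 2 ^ Λ w.1) :=
        LS.comp (f := fun q : α × ℕ × ℕ => q.1) hM (by fun_prop)
      have hu' : LS (fun w : α × ℕ × ℕ => w.2.1) := by fun_prop
      have hi' : LS (fun w : α × ℕ × ℕ => w.2.2) := by fun_prop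
      have hΛ' : LS (fun w : α × ℕ × ℕ => Λ w.1) := by fun_prop
      have g3 : LS (fun w : α × ℕ × ℕ => w.2.1 / 2 ^ Λ w.1 / 2 ^ Λ w.1 / 2 ^ Λ w.1) :=
        LS.div (LS.div (LS.div hu' hM') hM') hM'
      have g2 : LS (fun w : α × ℕ × ℕ => w.2.1 / 2 ^ Λ w.1 / 2 ^ Λ w.1 % 2 ^ Λ w.1) :=
        LS.mod (LS.div (LS.div hu' hM') hM') hM'
      have g1 : LS (fun w : α × ℕ × ℕ => w.2.1 / 2 ^ Λ w.1 % 2 ^ Λ w.1) :=
        LS.mod (LS.div hu' hM') hM'
      have g0 : LS (fun w : α × ℕ × ℕ => w.2.1 % 2 ^ Λ w.1) := LS.mod hu' hM'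
      unfold chT
      exact LS.ifz g3 (LS.pack4 hM' (LS.add hΛ' (LS.const 1)) g2 g1 (LS.const 0))
        (LS.ifz (LS.sub g3 (LS.const 1))
          (LS.ifz hi' (LS.pack4 hM' (LS.const 0) g2 g0 (LS.const 0))
            (LS.pack4 hM' (LS.const 0) g0 g1 (LS.const 0)))
          (LS.pack4 hM' (LS.sub g3 (LS.const 1)) g2 g1
            (LS.mod (LS.add (LS.mul (LS.const 2) g0) hi') hM')))
    · intro z u i
      exact chT_le (by positivity) _ _ _
    · intro z
      exact (pL_spec (b z * b z * q z)).1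
    · intro z
      have := (pL_spec (b z * b z * q z)).2.1
      omega
    · intro z
      have := (pL_spec (b z * b z * q z)).2.1
      show 2 * (b z * b z * q z) < pL (b z * b z * q z) - 1
      omega
    · intro z u x
      exact FT_lt (hlt' z)
    · intro z u
      show 0 < 2 ^ (b z * b z * q z)
      positivity
    · exact hb3
    · exact hb4
  unfold eng
  exact LS_digQ hBq hVT (LS.mod hm hb)

end Pool.Agent.Helper56.BG.PkLSE
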